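import Mathlib

/-!
# MP_6fd33d_al: the minimal `(m,n)`-product need not be the smallest element of `P_n`

For all infinite cardinals `n ≤ m`, with two factors, both the algebra of regular open subsets
of the real line.
-/

open TopologicalSpace Cardinal

namespace Pool.Agent.Results.MP_6fd33d_al.MinimalNotSmallest

/-- Boolean `m`-algebra: all sets of size `≤ m` have a join and a meet. -/
def IsMAlgebra (m : Cardinal.{0}) (B : Type) [BooleanAlgebra B] : Prop :=
  ∀ S : Set B, #S ≤ m → (∃ a, IsLUB S a) ∧ ∃ a, IsGLB S a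

/-- `m`-homomorphism: a map preserving complements and all existing joins and meets of size
`≤ m` (in particular the finite ones). -/
structure IsMHom (m : Cardinal.{0}) {A B : Type} [BooleanAlgebra A] [BooleanAlgebra B]
    (f : A → B) : Prop where
  map_compl : ∀ a, f aᶜ = (f a)ᶜ
  map_lub : ∀ S : Set A, #S ≤ m → ∀ a, IsLUB S a → IsLUB (f '' S) (f a)
  map_glb : ∀ S : Set A, #S ≤ m → ∀ a, IsGLB S a → IsGLB (f '' S) (f a)

/-- `k`-independence of a family of subsets of a Boolean algebra. -/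
def KIndep (k : Cardinal.{0}) {T B : Type} [BooleanAlgebra B] (C : T → Set B) : Prop :=
  ∀ T' : Set T, #T' ≤ k → ∀ c : T → B, (∀ t ∈ T', c t ∈ C t ∧ c t ≠ ⊥) →
    ∃ a, IsGLB (c '' T') a ∧ a ≠ ⊥

/-- Independence (finite subfamilies). -/
def Indep {T B : Type} [BooleanAlgebra B] (C : T → Set B) : Prop :=
  ∀ T' : Set T, T'.Finite → ∀ c : T → B, (∀ t ∈ T', c t ∈ C t ∧ c t ≠ ⊥) →
    ∃ a, IsGLB (c '' T') a ∧ a ≠ ⊥

/-- `G` generates `B` as a Boolean `m`-algebra. -/
def Generates (m : Cardinal.{0}) {B : Type} [BooleanAlgebra B] (G : Set B) : Prop :=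
  ∀ S : Set B, G ⊆ S → (∀ a ∈ S, aᶜ ∈ S) →
    (∀ X : Set B, X ⊆ S → #X ≤ m → ∀ a, IsLUB X a → a ∈ S) → S = Set.univ

/-- `{i, B}` is an `(m,0)`-product of the family `A`. -/
structure IsProduct (m : Cardinal.{0}) {T : Type} (A : T → Type) [∀ t, BooleanAlgebra (A t)]
    (B : Type) [BooleanAlgebra B] (i : ∀ t, A t → B) : Prop where
  alg : IsMAlgebra m B
  hom : ∀ t, IsMHom m (i t)
  inj : ∀ t, Function.Injective (i t)
  indep : Indep (fun t => Set.range (i t))
  gen : Generates m (⋃ t, Set.range (i t))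

/-- `{i, B}` is an `(m,n)`-product of the family `A`, i.e. a member of `P_n`. -/
structure IsNProduct (m n : Cardinal.{0}) {T : Type} (A : T → Type) [∀ t, BooleanAlgebra (A t)]
    (B : Type) [BooleanAlgebra B] (i : ∀ t, A t → B) : Prop where
  prod : IsProduct m A B i
  kindep : KIndep n (fun t => Set.range (i t))

/-- `{i, B}` is a minimal `(m,n)`-product of the family `A`. -/
structure IsMinimal (m n : Cardinal.{0}) {T : Type} (A : T → Type) [∀ t, BooleanAlgebra (A t)]
    (B : Type) [BooleanAlgebra B] (i : ∀ t, A t → B) : Prop where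
  nprod : IsNProduct m n A B i
  dense : ∀ b : B, b ≠ ⊥ → ∃ T' : Set T, #T' ≤ n ∧ ∃ c : T → B,
    (∀ t ∈ T', c t ∈ Set.range (i t)) ∧ ∃ a, IsGLB (c '' T') a ∧ a ≠ ⊥ ∧ a ≤ b

/-! ### Order theory -/

section order

variable {R : Type} [BooleanAlgebra R]

lemma isGLB_of_compl {S : Set R} {x : R} (h : IsLUB (compl '' S) x) : IsGLB S xᶜ := by
  constructor
  · intro s hs
    rw [compl_le_iff_compl_le]
    exact h.1 ⟨s, hs, rfl⟩
  · intro b hb
    rw [le_compl_comm]
    refine h.2 ?_
    rintro _ ⟨s, hs, rfl⟩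
    exact compl_le_compl (hb hs)

lemma isLUB_compl_image {S : Set R} {x : R} (h : IsGLB S x) : IsLUB (compl '' S) xᶜ := by
  constructor
  · rintro _ ⟨s, hs, rfl⟩
    exact compl_le_compl (h.1 hs)
  · intro b hb
    rw [compl_le_iff_compl_le]
    refine h.2 ?_
    intro s hs
    rw [compl_le_iff_compl_le]
    exact hb ⟨s, hs, rfl⟩

lemma isMHom_of {R' : Type} [BooleanAlgebra R'] (m : Cardinal.{0}) (f : R → R')
    (hc : ∀ a, f aᶜ = (f a)ᶜ)
    (hl : ∀ S : Set R, #S ≤ m → ∀ a, IsLUB S a → IsLUB (f '' S) (f a)) : IsMHom m f := by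
  refine ⟨hc, hl, fun S hS a ha => ?_⟩
  have h1 := hl (compl '' S) (mk_image_le.trans hS) aᶜ (isLUB_compl_image ha)
  have h2 : f '' (compl '' S) = compl '' (f '' S) := by
    rw [← Set.image_comp, ← Set.image_comp]
    congr 1
    funext x
    exact hc x
  rw [h2] at h1
  have h3 := isGLB_of_compl h1
  rwa [hc, compl_compl] at h3

/-- carrier of the `m`-subalgebra generated by `G` -/
def mgenSet (m : Cardinal.{0}) (G : Set R) : Set R :=
  {a | ∀ S : Set R, G ⊆ S → (∀ x ∈ S, xᶜ ∈ S) →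
    (∀ X : Set R, X ⊆ S → #X ≤ m → ∀ x, IsLUB X x → x ∈ S) → a ∈ S}

lemma mgen_compl {m : Cardinal.{0}} {G : Set R} {a : R} (ha : a ∈ mgenSet m G) :
    aᶜ ∈ mgenSet m G :=
  fun S h1 h2 h3 => h2 _ (ha S h1 h2 h3)

lemma mgen_lub {m : Cardinal.{0}} {G : Set R} {X : Set R} (hX : X ⊆ mgenSet m G)
    (hm : #X ≤ m) {x : R} (hx : IsLUB X x) : x ∈ mgenSet m G :=
  fun S h1 h2 h3 => h3 X (fun _ hy => hX hy S h1 h2 h3) hm x hx

lemma mgen_sub {m : Cardinal.{0}} {G : Set R} : G ⊆ mgenSet m G :=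
  fun _ ha _ h1 _ _ => h1 ha

/-- The `m`-subalgebra generated by `G`. -/
def mgen (m : Cardinal.{0}) (hm : ℵ₀ ≤ m) (G : Set R) : BooleanSubalgebra R where
  carrier := mgenSet m G
  supClosed' := by
    intro a ha b hb
    refine mgen_lub (X := {a, b}) ?_ ?_ isLUB_pair
    · intro x hx
      rcases hx with rfl | rfl
      · exact ha
      · exact hb
    · exact ((Set.toFinite _).lt_aleph0.le).trans hm
  infClosed' := by
    intro a ha b hb
    have h : a ⊓ b = (aᶜ ⊔ bᶜ)ᶜ := by rw [compl_sup, compl_compl, compl_compl]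
    rw [h]
    refine mgen_compl (mgen_lub (X := {aᶜ, bᶜ}) ?_ ?_ isLUB_pair)
    · intro x hx
      rcases hx with rfl | rfl
      · exact mgen_compl ha
      · exact mgen_compl hb
    · exact ((Set.toFinite _).lt_aleph0.le).trans hm
  compl_mem' := mgen_compl
  bot_mem' := by
    refine mgen_lub (X := ∅) (Set.empty_subset _) ?_ isLUB_empty
    simp

variable {m : Cardinal.{0}} {hm : ℵ₀ ≤ m} {G : Set R}

lemma lub_of_coe {S : Set (mgen m hm G)} {a : mgen m hm G}
    (h : IsLUB ((fun x : mgen m hm G => (x : R)) '' S) (a : R)) : IsLUB S a := by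
  constructor
  · intro s hs
    exact h.1 ⟨s, hs, rfl⟩
  · intro b hb
    refine h.2 ?_
    rintro _ ⟨s, hs, rfl⟩
    exact hb hs

lemma coe_of_lub (hR : ∀ S : Set R, ∃ a, IsLUB S a) {S : Set (mgen m hm G)} (hS : #S ≤ m)
    {a : mgen m hm G} (h : IsLUB S a) :
    IsLUB ((fun x : mgen m hm G => (x : R)) '' S) (a : R) := by
  obtain ⟨x, hx⟩ := hR ((fun x : mgen m hm G => (x : R)) '' S)
  have hxm : x ∈ mgenSet m G := by
    refine mgen_lub ?_ (mk_image_le.trans hS) hx
    rintro _ ⟨s, -, rfl⟩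
    exact s.2
  have h1 : IsLUB S (⟨x, hxm⟩ : mgen m hm G) := lub_of_coe hx
  have h2 : a = ⟨x, hxm⟩ := h.unique h1
  rw [h2]; exact hx

lemma mgen_alg (hR : ∀ S : Set R, ∃ a, IsLUB S a) : IsMAlgebra m (mgen m hm G) := by
  have hl : ∀ S : Set (mgen m hm G), #S ≤ m → ∃ a, IsLUB S a := by
    intro S hS
    obtain ⟨x, hx⟩ := hR ((fun x : mgen m hm G => (x : R)) '' S)
    have hxm : x ∈ mgenSet m G := by
      refine mgen_lub ?_ (mk_image_le.trans hS) hx
      rintro _ ⟨s, -, rfl⟩
      exact s.2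
    exact ⟨⟨x, hxm⟩, lub_of_coe hx⟩
  intro S hS
  refine ⟨hl S hS, ?_⟩
  obtain ⟨x, hx⟩ := hl (compl '' S) (mk_image_le.trans hS)
  exact ⟨xᶜ, isGLB_of_compl hx⟩

lemma mgen_generates (G' : Set (mgen m hm G))
    (hG : (fun x : mgen m hm G => (x : R)) '' G' = G) : Generates m G' := by
  intro S h1 h2 h3
  rw [Set.eq_univ_iff_forall]
  intro b
  have hb := b.2 {x : R | ∃ hx : x ∈ mgen m hm G, (⟨x, hx⟩ : mgen m hm G) ∈ S} ?_ ?_ ?_
  · obtain ⟨hx, hS⟩ := hb
    exact hS
  · intro x hx
    rw [← hG] at hx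
    obtain ⟨y, hy, rfl⟩ := hx
    exact ⟨y.2, h1 hy⟩
  · rintro x ⟨hx, hS⟩
    exact ⟨BooleanSubalgebra.compl_mem hx, h2 _ hS⟩
  · intro X hX hXm x hx
    have hxm : x ∈ mgen m hm G := mgen_lub (fun y hy => (hX hy).1) hXm hx
    refine ⟨hxm, ?_⟩
    set X' : Set (mgen m hm G) := {y | (y : R) ∈ X} with hX'
    have him : (fun x : mgen m hm G => (x : R)) '' X' = X := by
      ext y
      constructor
      · rintro ⟨z, hz, rfl⟩; exact hz
      · intro hy; exact ⟨⟨y, (hX hy).1⟩, hy, rfl⟩
    refine h3 X' ?_ ?_ _ (lub_of_coe (by rw [him]; exact hx))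
    · intro y hy
      obtain ⟨hx', hS⟩ := hX hy
      exact hS
    · have : #X' ≤ #X := by
        refine Cardinal.mk_le_of_injective (f := fun y : X' => (⟨(y : R), y.2⟩ : X)) ?_
        intro y z hyz
        have := congrArg (fun w : X => (w : R)) hyz
        exact Subtype.ext (Subtype.ext this)
      exact this.trans hXm

end order

/-! ### Regular open algebras -/

/-- The Boolean algebra of regular open subsets of `Z`. -/
abbrev RO (Z : Type) [TopologicalSpace Z] : Type := Heyting.Regular (Opens Z)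

section ro

variable {Z : Type} [TopologicalSpace Z]

lemma ro_lub (S : Set (RO Z)) :
    IsLUB S (Heyting.Regular.toRegular (sSup ((fun a : RO Z => (a : Opens Z)) '' S))) := by
  constructor
  · intro s hs
    rw [← Heyting.Regular.coe_le_coe]
    refine le_trans ?_ le_compl_compl
    exact le_sSup ⟨s, hs, rfl⟩
  · intro b hb
    refine (Heyting.Regular.gi.gc _ _).mpr ?_
    refine sSup_le ?_
    rintro _ ⟨s, hs, rfl⟩
    exact hb hs

lemma comap_compl {Y : Type} [TopologicalSpace Y] (p : C(Z, Y)) (hp : IsOpenMap p) (U : Opens Y) :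
    Opens.comap p Uᶜ = (Opens.comap p U)ᶜ := by
  apply SetLike.coe_injective
  rw [Opens.coe_comap, Opens.coe_compl_eq_interior_compl, Opens.coe_compl_eq_interior_compl,
    Opens.coe_comap, hp.preimage_interior_eq_interior_preimage p.continuous, Set.preimage_compl]

/-- Pullback of regular open sets along an open continuous map. -/
def pull {Y : Type} [TopologicalSpace Y] (p : C(Z, Y)) (hp : IsOpenMap p) (a : RO Y) : RO Z :=
  ⟨Opens.comap p a.val, by
    rw [Heyting.IsRegular, ← comap_compl p hp, ← comap_compl p hp, a.prop.eq]⟩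

variable {Y : Type} [TopologicalSpace Y] {p : C(Z, Y)} {hp : IsOpenMap p}

lemma pull_compl (a : RO Y) : pull p hp aᶜ = (pull p hp a)ᶜ := by
  apply Heyting.Regular.coe_injective
  exact comap_compl p hp a.val

lemma pull_lub (S : Set (RO Y)) (a : RO Y) (h : IsLUB S a) :
    IsLUB (pull p hp '' S) (pull p hp a) := by
  constructor
  · rintro _ ⟨s, hs, rfl⟩
    exact Opens.comap_mono p (h.1 hs)
  · intro b hb
    have h1 : a ≤ Heyting.Regular.toRegular (sSup ((fun a : RO Y => (a : Opens Y)) '' S)) :=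
      h.2 (ro_lub S).1
    rw [← Heyting.Regular.coe_le_coe, Heyting.Regular.coe_toRegular] at h1
    rw [← Heyting.Regular.coe_le_coe]
    have h2 : Opens.comap p a.val ≤
        (Opens.comap p (sSup ((fun a : RO Y => (a : Opens Y)) '' S)))ᶜᶜ := by
      rw [← comap_compl p hp, ← comap_compl p hp]
      exact Opens.comap_mono p h1
    refine h2.trans ?_
    have h3 : Opens.comap p (sSup ((fun a : RO Y => (a : Opens Y)) '' S)) ≤ b.val := by
      rw [map_sSup]
      refine sSup_le ?_
      rintro _ ⟨_, ⟨s, hs, rfl⟩, rfl⟩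
      exact hb ⟨s, hs, rfl⟩
    exact (compl_le_compl (compl_le_compl h3)).trans_eq b.prop

lemma pull_inj (hs : Function.Surjective p) : Function.Injective (pull p hp) := by
  intro a b hab
  apply Heyting.Regular.coe_injective
  have h := congrArg (fun x : RO Z => ((x : Opens Z) : Set Z)) hab
  change p ⁻¹' _ = p ⁻¹' _ at h
  exact SetLike.coe_injective (Set.preimage_injective.mpr hs h)

lemma exists_mem_of_ne_bot {a : RO Z} (ha : a ≠ ⊥) : ∃ z, z ∈ a.val := by
  by_contra h
  push Not at h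
  apply ha
  apply Heyting.Regular.coe_injective
  ext z
  simp only [SetLike.mem_coe]
  constructor
  · intro hz; exact absurd hz (h z)
  · intro hz; exact absurd hz (by simp)

lemma ne_bot_of_mem {a : RO Z} {z : Z} (hz : z ∈ a.val) : a ≠ ⊥ := by
  rintro rfl
  have : z ∈ (⊥ : Opens Z) := hz
  simp at this

lemma compl_compl_sub (U : Opens Z) : ((Uᶜᶜ : Opens Z) : Set Z) ⊆ closure (U : Set Z) := by
  rw [Opens.coe_compl_eq_interior_compl, Opens.coe_compl_eq_interior_compl]
  refine interior_subset.trans ?_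
  rw [← closure_compl, compl_compl]

end ro

/-! ### Products from pairs of open maps to the line -/

section products

/-- Data: a space with two open continuous surjections to the line such that any two nonempty
open sets are hit simultaneously. -/
structure Pair (Z : Type) [TopologicalSpace Z] where
  p : Bool → C(Z, ℝ)
  opn : ∀ t, IsOpenMap (p t)
  surj : ∀ t, Function.Surjective (p t)
  hit : ∀ U : Bool → Set ℝ, (∀ t, IsOpen (U t)) → (∀ t, (U t).Nonempty) → ∃ z, ∀ t, p t z ∈ U t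

variable {Z : Type} [TopologicalSpace Z] (P : Pair Z) (m : Cardinal.{0}) (hm : ℵ₀ ≤ m)

/-- The `m`-algebra generated by the two copies of `RO ℝ`. -/
abbrev Alg : Type := mgen (R := RO Z) m hm (⋃ t : Bool, Set.range (pull (P.p t) (P.opn t)))

/-- The embeddings. -/
def emb (t : Bool) (a : RO ℝ) : Alg P m hm :=
  ⟨pull (P.p t) (P.opn t) a, mgen_sub (Set.mem_iUnion.mpr ⟨t, ⟨a, rfl⟩⟩)⟩

lemma mem_emb {t : Bool} {a : RO ℝ} {z : Z} :
    z ∈ ((emb P m hm t a : Alg P m hm) : RO Z).val ↔ P.p t z ∈ a.val := Iff.rfl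

lemma emb_hom (t : Bool) : IsMHom m (emb P m hm t) := by
  refine isMHom_of m _ (fun a => Subtype.ext (pull_compl (hp := P.opn t) a)) ?_
  intro S hS a ha
  apply lub_of_coe
  have h := pull_lub (p := P.p t) (hp := P.opn t) S a ha
  rw [← Set.image_comp]
  exact h

lemma emb_inj (t : Bool) : Function.Injective (emb P m hm t) := by
  intro a b hab
  exact pull_inj (hp := P.opn t) (P.surj t) (congrArg (fun x : Alg P m hm => (x : RO Z)) hab)

lemma emb_indep (T' : Set Bool) (c : Bool → Alg P m hm)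
    (hc : ∀ t ∈ T', c t ∈ Set.range (emb P m hm t) ∧ c t ≠ ⊥) :
    ∃ a, IsGLB (c '' T') a ∧ a ≠ ⊥ := by
  classical
  have h1 : ∀ t, ∃ U : RO ℝ, (∃ x, x ∈ U.val) ∧
      emb P m hm t U = if t ∈ T' then c t else ⊤ := by
    intro t
    by_cases ht : t ∈ T'
    · rw [if_pos ht]
      obtain ⟨⟨U, hU⟩, hne⟩ := hc t ht
      refine ⟨U, ?_, hU⟩
      rw [← hU] at hne
      have h2 : pull (P.p t) (P.opn t) U ≠ ⊥ := fun h => hne (Subtype.ext h)
      obtain ⟨z, hz⟩ := exists_mem_of_ne_bot h2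
      exact ⟨P.p t z, hz⟩
    · rw [if_neg ht]
      exact ⟨⊤, ⟨0, trivial⟩, rfl⟩
  choose U hUne hU using h1
  obtain ⟨z, hz⟩ := P.hit (fun t => ((U t).val : Set ℝ)) (fun t => (U t).val.isOpen) hUne
  refine ⟨(if true ∈ T' then c true else ⊤) ⊓ (if false ∈ T' then c false else ⊤), ?_, ?_⟩
  · constructor
    · rintro _ ⟨t, ht, rfl⟩
      cases t
      · rw [if_pos ht]; exact inf_le_right
      · rw [if_pos ht]; exact inf_le_left
    · intro b hb
      refine le_inf ?_ ?_
      · split_ifs with h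
        · exact hb ⟨true, h, rfl⟩
        · exact le_top
      · split_ifs with h
        · exact hb ⟨false, h, rfl⟩
        · exact le_top
  · rw [← hU, ← hU]
    intro h
    have h3 := congrArg (fun x : Alg P m hm => (x : RO Z)) h
    have h4 : z ∈ (((emb P m hm true (U true) ⊓ emb P m hm false (U false) : Alg P m hm) :
        RO Z)).val := by
      refine ⟨hz true, hz false⟩
    exact ne_bot_of_mem h4 h3

lemma emb_nprod (n : Cardinal.{0}) :
    IsNProduct m n (fun _ : Bool => RO ℝ) (Alg P m hm) (emb P m hm) where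
  prod :=
    { alg := mgen_alg fun S => ⟨_, ro_lub S⟩
      hom := emb_hom P m hm
      inj := emb_inj P m hm
      indep := fun T' _ c hc => emb_indep P m hm T' c hc
      gen := by
        refine mgen_generates _ ?_
        rw [Set.image_iUnion]
        congr 1
        funext t
        rw [← Set.range_comp]
        rfl }
  kindep := fun T' _ c hc => emb_indep P m hm T' c hc

end products

/-! ### The minimal product -/

/-- The two projections of the plane. -/
def plane : Pair (ℝ × ℝ) where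
  p t := if t then ⟨Prod.fst, continuous_fst⟩ else ⟨Prod.snd, continuous_snd⟩
  opn t := by
    cases t
    · exact isOpenMap_snd
    · exact isOpenMap_fst
  surj t := by
    cases t
    · exact Prod.snd_surjective
    · exact Prod.fst_surjective
  hit U _ hne := by
    obtain ⟨x, hx⟩ := hne true
    obtain ⟨y, hy⟩ := hne false
    refine ⟨(x, y), fun t => ?_⟩
    cases t
    · exact hy
    · exact hx

/-- Regularised interval. -/
noncomputable def ival (a b : ℝ) : RO ℝ :=
  Heyting.Regular.toRegular ⟨Set.Ioo a b, isOpen_Ioo⟩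

lemma ival_sub {a b x : ℝ} (hx : x ∈ (ival a b).val) : a ≤ x ∧ x ≤ b := by
  have h : x ∈ closure (Set.Ioo a b) :=
    compl_compl_sub (⟨Set.Ioo a b, isOpen_Ioo⟩ : Opens ℝ) hx
  exact closure_minimal (t := Set.Icc a b) (fun y hy => ⟨hy.1.le, hy.2.le⟩) isClosed_Icc h

lemma mem_ival {a b x : ℝ} (h : a < x ∧ x < b) : x ∈ (ival a b).val := by
  have h1 : (⟨Set.Ioo a b, isOpen_Ioo⟩ : Opens ℝ) ≤ (ival a b).val := le_compl_compl
  exact h1 h

lemma plane_minimal (m n : Cardinal.{0}) (hm : ℵ₀ ≤ m) (hn : ℵ₀ ≤ n) :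
    IsMinimal m n (fun _ : Bool => RO ℝ) (Alg plane m hm) (emb plane m hm) where
  nprod := emb_nprod plane m hm n
  dense := by
    intro b hb
    have hb' : (b : RO (ℝ × ℝ)) ≠ ⊥ := fun h => hb (Subtype.ext h)
    obtain ⟨⟨x, y⟩, hz⟩ := exists_mem_of_ne_bot hb'
    obtain ⟨ε, hε, hball⟩ := Metric.isOpen_iff.mp (b : RO (ℝ × ℝ)).val.isOpen _ hz
    set U := ival (x - ε/2) (x + ε/2) with hU
    set V := ival (y - ε/2) (y + ε/2) with hV
    have hxU : x ∈ U.val := mem_ival ⟨by linarith, by linarith⟩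
    have hyV : y ∈ V.val := mem_ival ⟨by linarith, by linarith⟩
    refine ⟨Set.univ, ?_, fun t => if t then emb plane m hm true U else emb plane m hm false V,
      ?_, emb plane m hm true U ⊓ emb plane m hm false V, ?_, ?_, ?_⟩
    · exact ((Set.toFinite _).lt_aleph0.le).trans hn
    · intro t _
      cases t
      · exact ⟨V, rfl⟩
      · exact ⟨U, rfl⟩
    · constructor
      · rintro _ ⟨t, -, rfl⟩
        cases t
        · exact inf_le_right
        · exact inf_le_left
      · intro c hc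
        exact le_inf (hc ⟨true, trivial, rfl⟩) (hc ⟨false, trivial, rfl⟩)
    · intro h
      have h3 := congrArg (fun w : Alg plane m hm => (w : RO (ℝ × ℝ))) h
      have h4 : (x, y) ∈ (((emb plane m hm true U ⊓ emb plane m hm false V : Alg plane m hm) :
          RO (ℝ × ℝ))).val :=
        ⟨hxU, hyV⟩
      exact ne_bot_of_mem h4 h3
    · rintro ⟨u, v⟩ ⟨hu, hv⟩
      have hu' := ival_sub (x := u) hu
      have hv' := ival_sub (x := v) hv
      apply hball
      rw [Metric.mem_ball, Prod.dist_eq, max_lt_iff, Real.dist_eq, Real.dist_eq, abs_lt, abs_lt]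
      refine ⟨⟨?_, ?_⟩, ⟨?_, ?_⟩⟩ <;> simp only <;> linarith

/-! ### The larger product that is not above the minimal one -/

/-- Countably many copies of the line; the second map is shifted by a dense sequence. -/
noncomputable def shifted : Pair (ℕ × ℝ) where
  p t := if t then ⟨Prod.snd, continuous_snd⟩ else
    ⟨fun z => z.2 + denseSeq ℝ z.1, by
      refine continuous_snd.add ?_
      exact (continuous_of_discreteTopology (f := denseSeq ℝ)).comp continuous_fst⟩
  opn t := by
    cases t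
    · intro U hU
      have h : (fun z : ℕ × ℝ => z.2 + denseSeq ℝ z.1) '' U =
          ⋃ k : ℕ, (fun x => x + denseSeq ℝ k) '' {x | (k, x) ∈ U} := by
        ext y
        simp only [Set.mem_image, Set.mem_iUnion, Set.mem_ofPred_eq, Prod.exists]
      change IsOpen ((fun z : ℕ × ℝ => z.2 + denseSeq ℝ z.1) '' U)
      rw [h]
      refine isOpen_iUnion fun k => ?_
      refine (isOpenMap_add_right (denseSeq ℝ k)) _ ?_
      exact hU.preimage (Continuous.prodMk_right k)
    · exact isOpenMap_snd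
  surj t := by
    cases t
    · intro y
      exact ⟨(0, y - denseSeq ℝ 0), by simp⟩
    · exact Prod.snd_surjective
  hit U hU hne := by
    obtain ⟨x, hx⟩ := hne true
    obtain ⟨y, hy⟩ := hne false
    have h1 : IsOpen {d : ℝ | x + d ∈ U false} :=
      (hU false).preimage (continuous_const.add continuous_id)
    obtain ⟨k, hk⟩ := (denseRange_denseSeq ℝ).exists_mem_open h1 ⟨y - x, by simpa using hy⟩
    refine ⟨(k, x), fun t => ?_⟩
    cases t
    · exact hk
    · exact hx

/-- The slice complement as a regular open set. -/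
def coslice (k : ℕ) : RO (ℕ × ℝ) :=
  ⟨⟨{z | z.1 ≠ k}, (isOpen_discrete {j : ℕ | j ≠ k}).preimage continuous_fst⟩, by
    rw [Heyting.IsRegular]
    apply SetLike.coe_injective
    rw [Opens.coe_compl_eq_interior_compl, Opens.coe_compl_eq_interior_compl]
    have h1 : IsClopen {z : ℕ × ℝ | z.1 ≠ k} :=
      (isClopen_discrete {j : ℕ | j ≠ k}).preimage continuous_fst
    change interior (interior {z : ℕ × ℝ | z.1 ≠ k}ᶜ)ᶜ = {z : ℕ × ℝ | z.1 ≠ k}
    rw [h1.compl.isOpen.interior_eq, compl_compl, h1.isOpen.interior_eq]⟩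

section contradiction

variable {m : Cardinal.{0}} {hm : ℵ₀ ≤ m}

/-- Rational rectangles of a product avoiding the graph `y = x + d k`. -/
def Fam {Z : Type} [TopologicalSpace Z] (P : Pair Z) (m : Cardinal.{0}) (hm : ℵ₀ ≤ m) (k : ℕ) :
    Set (Alg P m hm) :=
  (fun q : (ℚ × ℚ) × (ℚ × ℚ) => emb P m hm true (ival q.1.1 q.1.2) ⊓
      emb P m hm false (ival q.2.1 q.2.2)) ''
    {q | ∀ x : ℝ, x ∈ (ival q.1.1 q.1.2).val → x + denseSeq ℝ k ∉ (ival q.2.1 q.2.2).val}

lemma fam_card {Z : Type} [TopologicalSpace Z] (P : Pair Z) (k : ℕ) :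
    #(Fam P m hm k) ≤ m :=
  ((Set.to_countable _).image _).le_aleph0.trans hm

lemma fam_le (k : ℕ) {w : Alg shifted m hm} (hw : w ∈ Fam shifted m hm k) :
    (w : RO (ℕ × ℝ)) ≤ coslice k := by
  obtain ⟨q, hq, rfl⟩ := hw
  rintro ⟨j, x⟩ ⟨h1, h2⟩ hjk
  change j = k at hjk
  subst hjk
  exact hq x h1 h2

lemma plane_top (k : ℕ) {w : Alg plane m hm} (hw : w ∈ upperBounds (Fam plane m hm k)) :
    w = ⊤ := by
  have h1 : ∀ x y : ℝ, y ≠ x + denseSeq ℝ k → (x, y) ∈ (w : RO (ℝ × ℝ)).val := by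
    intro x y hxy
    set d := denseSeq ℝ k
    set δ := |y - x - d| / 4 with hδ
    have hδ0 : 0 < δ := by
      have : y - x - d ≠ 0 := fun h => hxy (by linarith)
      have := abs_pos.mpr this
      rw [hδ]; linarith
    obtain ⟨a, ha1, ha2⟩ := exists_rat_btwn (show x - δ < x by linarith)
    obtain ⟨b, hb1, hb2⟩ := exists_rat_btwn (show x < x + δ by linarith)
    obtain ⟨c, hc1, hc2⟩ := exists_rat_btwn (show y - δ < y by linarith)
    obtain ⟨e, he1, he2⟩ := exists_rat_btwn (show y < y + δ by linarith)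
    have hmem : emb plane m hm true (ival a b) ⊓ emb plane m hm false (ival c e) ∈
        Fam plane m hm k := by
      refine ⟨((a, b), (c, e)), ?_, rfl⟩
      intro x' hx' hy'
      have h2 := ival_sub hx'
      have h3 := ival_sub hy'
      simp only at h2 h3
      change (c : ℝ) ≤ x' + d ∧ x' + d ≤ e at h3
      have h4 : |y - x - d| < 4 * δ := by
        rw [abs_lt]
        constructor <;> linarith [h2.1, h2.2, h3.1, h3.2]
      rw [hδ] at h4
      linarith
    have h5 : emb plane m hm true (ival a b) ⊓ emb plane m hm false (ival c e) ≤ w := hw hmem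
    have h6 : (x, y) ∈ (((emb plane m hm true (ival a b) ⊓ emb plane m hm false (ival c e) :
        Alg plane m hm) : RO (ℝ × ℝ))).val :=
      ⟨mem_ival (x := x) ⟨ha2, hb1⟩, mem_ival (x := y) ⟨hc2, he1⟩⟩
    exact h5 h6
  have h2 : wᶜ = ⊥ := by
    by_contra hne
    have hne' : ((wᶜ : Alg plane m hm) : RO (ℝ × ℝ)) ≠ ⊥ := fun h => hne (Subtype.ext h)
    obtain ⟨⟨x, y⟩, hz⟩ := exists_mem_of_ne_bot hne'
    obtain ⟨ε, hε, hball⟩ := Metric.isOpen_iff.mp
      ((wᶜ : Alg plane m hm) : RO (ℝ × ℝ)).val.isOpen _ hz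
    have h3 : ∃ y' : ℝ, y' ≠ x + denseSeq ℝ k ∧ |y' - y| < ε := by
      by_cases h : y = x + denseSeq ℝ k
      · exact ⟨y + ε/2, by intro h'; rw [h] at h'; linarith, by
          rw [add_sub_cancel_left, abs_of_pos (by linarith)]; linarith⟩
      · exact ⟨y, h, by simpa using hε⟩
    obtain ⟨y', hy1, hy2⟩ := h3
    have h4 : (x, y') ∈ ((wᶜ : Alg plane m hm) : RO (ℝ × ℝ)).val := by
      apply hball
      rw [Metric.mem_ball, Prod.dist_eq, max_lt_iff, Real.dist_eq, Real.dist_eq]
      simpa using ⟨hε, hy2⟩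
    have h5 := h1 x y' hy1
    have h6 : (x, y') ∈ (((w ⊓ wᶜ : Alg plane m hm)) : RO (ℝ × ℝ)).val := ⟨h5, h4⟩
    rw [inf_compl_eq_bot] at h6
    exact ne_bot_of_mem h6 rfl
  rw [compl_eq_bot] at h2
  exact h2

theorem no_hom (h : Alg shifted m hm → Alg plane m hm) (hh : IsMHom m h)
    (hcomp : ∀ t a, h (emb shifted m hm t a) = emb plane m hm t a) : False := by
  have hR : ∀ S : Set (RO (ℕ × ℝ)), ∃ a, IsLUB S a := fun S => ⟨_, ro_lub S⟩
  have halg : IsMAlgebra m (Alg shifted m hm) := mgen_alg hR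
  choose E hE using fun k => (halg (Fam shifted m hm k) (fam_card shifted k)).1
  have hinf : ∀ a b, h (a ⊓ b) = h a ⊓ h b := by
    intro a b
    have h1 := hh.map_glb {a, b} (((Set.toFinite _).lt_aleph0.le).trans hm) _ isGLB_pair
    rw [Set.image_pair] at h1
    exact h1.unique isGLB_pair
  have hfam : ∀ k, h '' (Fam shifted m hm k) = Fam plane m hm k := by
    intro k
    unfold Fam
    rw [← Set.image_comp]
    refine Set.image_congr fun q _ => ?_
    simp only [Function.comp]
    rw [hinf, hcomp, hcomp]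
  have htop : ∀ k, h (E k) = ⊤ := by
    intro k
    have h1 := hh.map_lub _ (fam_card shifted k) _ (hE k)
    rw [hfam] at h1
    exact plane_top k h1.1
  have hEle : ∀ k, (E k : RO (ℕ × ℝ)) ≤ coslice k := by
    intro k
    refine (coe_of_lub hR (fam_card shifted k) (hE k)).2 ?_
    rintro _ ⟨w, hw, rfl⟩
    exact fam_le k hw
  have hglb : IsGLB (Set.range E) ⊥ := by
    refine ⟨fun _ _ => bot_le, ?_⟩
    intro b hb
    by_contra hne
    have hne' : (b : RO (ℕ × ℝ)) ≠ ⊥ := fun h => hne (le_of_eq (Subtype.ext h))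
    obtain ⟨⟨k, x⟩, hz⟩ := exists_mem_of_ne_bot hne'
    have h1 : (b : RO (ℕ × ℝ)) ≤ E k := hb ⟨k, rfl⟩
    have h2 := (h1.trans (hEle k)) hz
    exact h2 rfl
  have h1 := hh.map_glb (Set.range E) ((Set.countable_range E).le_aleph0.trans hm) _ hglb
  have h2 : h '' Set.range E = {⊤} := by
    rw [← Set.range_comp]
    ext w
    simp only [Set.mem_range, Function.comp, htop, Set.mem_singleton_iff]
    constructor
    · rintro ⟨_, rfl⟩; rfl
    · rintro rfl; exact ⟨0, rfl⟩
  rw [h2] at h1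
  have h3 : h ⊥ = ⊤ := h1.unique isGLB_singleton
  have h4 := hh.map_lub ∅ (by simp) ⊥ isLUB_empty
  rw [Set.image_empty] at h4
  have h5 : h ⊥ = ⊥ := h4.unique isLUB_empty
  rw [h3] at h5
  have h6 : ((0 : ℝ), (0 : ℝ)) ∈ (((⊤ : Alg plane m hm)) : RO (ℝ × ℝ)).val := trivial
  rw [h5] at h6
  exact ne_bot_of_mem h6 rfl

end contradiction

/-- Q1 for given cardinals `n ≤ m`: the minimal `(m,n)`-product of every family lies below every
`(m,n)`-product of the family. -/
def Q1At (m n : Cardinal.{0}) : Prop :=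
  ∀ (T : Type) (A : T → Type) [∀ t, BooleanAlgebra (A t)] [∀ t, Nontrivial (A t)]
    (M : Type) [BooleanAlgebra M] (iM : ∀ t, A t → M), IsMinimal m n A M iM →
    ∀ (Q : Type) [BooleanAlgebra Q] (iQ : ∀ t, A t → Q), IsNProduct m n A Q iQ →
      ∃ h : Q → M, IsMHom m h ∧ ∀ t a, h (iQ t a) = iM t a

/-- **Answer to Q1 of MP_6fd33d_al (negative, for all cardinals).** For all infinite cardinals
`n ≤ m` the minimal `(m,n)`-product of the family consisting of two copies of the algebra of
regular open subsets of the real line is not the smallest element of `P_n`. -/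
theorem result (m n : Cardinal.{0}) (hn : ℵ₀ ≤ n) (hnm : n ≤ m) :
    ¬ Q1At m n ∧
    ∃ (M : Type) (_ : BooleanAlgebra M) (iM : Bool → RO ℝ → M)
      (Q : Type) (_ : BooleanAlgebra Q) (iQ : Bool → RO ℝ → Q),
      IsMinimal m n (fun _ : Bool => RO ℝ) M iM ∧ IsNProduct m n (fun _ : Bool => RO ℝ) Q iQ ∧
      ¬ ∃ h : Q → M, IsMHom m h ∧ ∀ t a, h (iQ t a) = iM t a := by
  have hm : ℵ₀ ≤ m := hn.trans hnm
  have hno : ¬ ∃ h : Alg shifted m hm → Alg plane m hm, IsMHom m h ∧
      ∀ t a, h (emb shifted m hm t a) = emb plane m hm t a := by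
    rintro ⟨h, hh, hc⟩
    exact no_hom h hh hc
  refine ⟨fun hQ => hno ?_, Alg plane m hm, inferInstance, emb plane m hm,
    Alg shifted m hm, inferInstance, emb shifted m hm, plane_minimal m n hm hn,
    emb_nprod shifted m hm n, hno⟩
  have : Nontrivial (RO ℝ) := ⟨⟨⊤, ⊥, ne_bot_of_mem (z := (0:ℝ)) trivial⟩⟩
  exact hQ Bool (fun _ => RO ℝ) (Alg plane m hm) (emb plane m hm) (plane_minimal m n hm hn)
    (Alg shifted m hm) (emb shifted m hm) (emb_nprod shifted m hm n)

end Pool.Agent.Results.MP_6fd33d_al.MinimalNotSmallest
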